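import Pool.Agent.H156R3.PerFin

set_option autoImplicit false

namespace Pool.Agent.Results.MP_82b063_al.PeriodicCounterexample

open Pool.Agent.H156R3

/-- There is an abelian Hausdorff paratopological group which is topologically periodic, countably
pracompact (hence pseudocompact) and left `ω`-precompact, and which is not a topological group:
all four implications (a), (b), (c), (d) of Q1 fail. -/
theorem result : ∃ (G : Type) (_ : CommGroup G) (_ : TopologicalSpace G),
    ContinuousMul G ∧ T2Space G ∧ TopologicallyPeriodic G ∧ CountablyPracompact G ∧
      Pseudocompact G ∧ LeftOmegaPrecompact G ∧ ¬ ContinuousInv G :=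
  example_periodic

end Pool.Agent.Results.MP_82b063_al.PeriodicCounterexample
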